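import Pool.Agent.DFM.Stmts

/-!
# Squad DFM, row COF (helper92): the cofinality of `L(I,J,w)`
-/

set_option autoImplicit false

namespace Pool.Agent.DFM.H92

open Pool.Agent.DFM Cardinal

/-- **COF** -/
theorem cof : CofStmt := by
  intro I J w _ _
  refine ⟨⟨Set.range fun F : {F : Finset J // F.Nonempty} => El.top F.1, ?_, ?_, ?_⟩, ?_⟩
  · rintro t ⟨F, rfl⟩
    exact F.2
  · intro x hx
    obtain ⟨j0⟩ : Nonempty J := inferInstance
    cases x with
    | low G => exact ⟨El.top {j0}, ⟨⟨{j0}, Finset.singleton_nonempty _⟩, rfl⟩, trivial⟩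
    | mid => exact ⟨El.top {j0}, ⟨⟨{j0}, Finset.singleton_nonempty _⟩, rfl⟩, trivial⟩
    | top F => exact ⟨El.top F, ⟨⟨F, hx⟩, rfl⟩, Finset.Subset.refl F⟩
    | ch i j n => exact ⟨El.top {j}, ⟨⟨{j}, Finset.singleton_nonempty _⟩, rfl⟩,
        Finset.mem_singleton_self j⟩
  · have hinj : Function.Injective
        (fun F : {F : Finset J // F.Nonempty} => (El.top F.1 : El I J)) := by
      intro F F' h
      exact Subtype.ext (El.top.inj h)
    rw [Cardinal.mk_range_eq _ hinj]
    apply le_antisymm
    · exact (Cardinal.mk_subtype_le _).trans (Cardinal.mk_finset_of_infinite J).le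
    · exact Cardinal.mk_le_of_injective
        (f := fun j : J => (⟨{j}, Finset.singleton_nonempty j⟩ : {F : Finset J // F.Nonempty}))
        (fun a b h => Finset.singleton_injective (congrArg Subtype.val h))
  · intro T hT hc
    have h1 : ∀ j : J, ∃ t : T, ∃ F : Finset J, t.1 = El.top F ∧ j ∈ F := by
      intro j
      obtain ⟨t, ht, hle⟩ := hc (El.top {j}) (Finset.singleton_nonempty j)
      refine ⟨⟨t, ht⟩, ?_⟩
      cases t with
      | low G => exact hle.elim
      | mid => exact hle.elim
      | top F => exact ⟨F, rfl, hle (Finset.mem_singleton_self j)⟩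
      | ch i j n => exact hle.elim
    choose t F hF hj using h1
    -- the map `j ↦ t j` has finite fibres
    have h2 : ∀ s : T, (t ⁻¹' {s}).Finite := by
      intro s
      by_cases hs : ∃ j, t j = s
      · obtain ⟨j, rfl⟩ := hs
        refine (F j).finite_toSet.subset ?_
        intro k hk
        have hk' : t k = t j := hk
        have h3 : (El.top (F k) : El I J) = El.top (F j) := by
          rw [← hF k, ← hF j, hk']
        have h4 := El.top.inj h3
        have := hj k
        rw [h4] at this
        exact this
      · have : t ⁻¹' {s} = ∅ := by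
          ext k
          simp only [Set.mem_preimage, Set.mem_singleton_iff, Set.mem_empty_iff_false, iff_false]
          exact fun h => hs ⟨k, h⟩
        rw [this]
        exact Set.finite_empty
    have h3 : Infinite T := by
      by_contra hfin
      rw [not_infinite_iff_finite] at hfin
      have h4 : (Set.univ : Set J).Finite := by
        have h5 : (Set.univ : Set J) = ⋃ s : T, t ⁻¹' {s} := by
          ext k
          simp
        rw [h5]
        exact Set.finite_iUnion h2
      exact Set.infinite_univ h4
    have h4 : Cardinal.mk J ≤ Cardinal.mk T * Cardinal.aleph0 := by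
      have h5 : Cardinal.mk J = Cardinal.mk (Σ s : T, {j : J // t j = s}) :=
        Cardinal.mk_congr (Equiv.sigmaFiberEquiv t).symm
      rw [h5, Cardinal.mk_sigma]
      refine (Cardinal.sum_le_sum _ (fun _ => Cardinal.aleph0) fun s => ?_).trans ?_
      · exact (Set.Finite.lt_aleph0 (h2 s)).le
      · rw [Cardinal.sum_const']
    rwa [Cardinal.mul_aleph0_eq (Cardinal.aleph0_le_mk T)] at h4

end Pool.Agent.DFM.H92
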